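import Pool.Agent.helper9.HQ.Spec

/-!
# hq:K2, the first order condition in `x`
-/

set_option autoImplicit false

open scoped Classical

namespace Pool.Agent.helper9.HQ

open Finset
open Pool.Agent.helper65.HC (V IsEig IsTop lam)

theorem K2_ite (P : Prop) (e : ℝ) : (if P then e else 0) = (if P then (1 : ℝ) else 0) * e := by
  by_cases h : P
  · rw [if_pos h, if_pos h, one_mul]
  · rw [if_neg h, if_neg h, zero_mul]

theorem K2_bil {n : ℕ} (w : Fin n → Fin n → ℝ) (hw : ∀ i j, w i j = w j i) (x u : Fin n → ℝ)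
    (r : ℝ) :
    ∑ i, ∑ j, w i j * ((x i + r * u i) * (x j + r * u j)) =
      ∑ i, ∑ j, w i j * (x i * x j) + 2 * r * ∑ i, u i * ∑ j, w i j * x j +
        r ^ 2 * ∑ i, ∑ j, w i j * (u i * u j) := by
  have h1 : ∑ i, ∑ j, w i j * (x i * u j) = ∑ i, u i * ∑ j, w i j * x j := by
    rw [Finset.sum_comm]
    refine Finset.sum_congr rfl fun i _ => ?_
    rw [Finset.mul_sum]
    refine Finset.sum_congr rfl fun j _ => ?_
    rw [hw j i]
    ring
  have h2 : ∑ i, ∑ j, w i j * (u i * x j) = ∑ i, u i * ∑ j, w i j * x j := by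
    refine Finset.sum_congr rfl fun i _ => ?_
    rw [Finset.mul_sum]
    refine Finset.sum_congr rfl fun j _ => ?_
    ring
  have h3 : ∑ i, ∑ j, w i j * ((x i + r * u i) * (x j + r * u j)) =
      ∑ i, ∑ j, w i j * (x i * x j) + r * ∑ i, ∑ j, w i j * (x i * u j) +
        r * ∑ i, ∑ j, w i j * (u i * x j) + r ^ 2 * ∑ i, ∑ j, w i j * (u i * u j) := by
    rw [Finset.mul_sum, Finset.mul_sum, Finset.mul_sum, ← Finset.sum_add_distrib,
      ← Finset.sum_add_distrib, ← Finset.sum_add_distrib]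
    refine Finset.sum_congr rfl fun i _ => ?_
    rw [Finset.mul_sum, Finset.mul_sum, Finset.mul_sum, ← Finset.sum_add_distrib,
      ← Finset.sum_add_distrib, ← Finset.sum_add_distrib]
    refine Finset.sum_congr rfl fun j _ => ?_
    ring
  rw [h3, h1, h2]
  ring

theorem K2_sum3 {n : ℕ} (h : Fin n → ℝ) (p q i : Fin n) (A B C : ℝ) :
    ∑ j, h j * ((if j = q then A else 0) + (if j = p then B else 0) + (if j = i then C else 0)) =
      A * h q + B * h p + C * h i := by
  have e : ∀ (s : Fin n) (D : ℝ), ∑ j, h j * (if j = s then D else 0) = D * h s := by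
    intro s D
    rw [Finset.sum_eq_single s]
    · rw [if_pos rfl]
      ring
    · intro b _ hb
      rw [if_neg hb, mul_zero]
    · intro hs
      exact absurd (Finset.mem_univ s) hs
  have e2 : ∀ j, h j * ((if j = q then A else 0) + (if j = p then B else 0) +
      (if j = i then C else 0)) = h j * (if j = q then A else 0) + h j * (if j = p then B else 0) +
      h j * (if j = i then C else 0) := by
    intro j
    ring
  rw [Finset.sum_congr rfl fun j _ => e2 j, Finset.sum_add_distrib, Finset.sum_add_distrib,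
    e, e, e]

theorem K2_lin {n : ℕ} (ps de : Fin n → ℝ) (p q : Fin n) (hpq : de q < de p)
    (hA : ∀ u : Fin n → ℝ, ∑ i, u i = 0 → ∑ i, de i * u i < 0 → ∑ i, ps i * u i ≤ 0) :
    ∃ nu M : ℝ, ∀ i, ps i = nu + M * de i := by
  have hne : de p - de q ≠ 0 := by
    have := sub_pos.mpr hpq
    exact this.ne'
  refine ⟨ps p - (ps p - ps q) / (de p - de q) * de p, (ps p - ps q) / (de p - de q), ?_⟩
  intro i
  obtain ⟨al, hal⟩ : ∃ al : ℝ, al = (de i - de q) / (de p - de q) := ⟨_, rfl⟩
  have hal' : al * (de p - de q) = de i - de q := by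
    rw [hal, div_mul_cancel₀ _ hne]
  have key : ps i = al * ps p + (1 - al) * ps q := by
    by_contra hcon
    obtain ⟨D, hD⟩ : ∃ D : ℝ, D = ps i - (al * ps p + (1 - al) * ps q) := ⟨_, rfl⟩
    have hD0 : D ≠ 0 := by
      rw [hD]
      exact sub_ne_zero.mpr hcon
    obtain ⟨t, ht⟩ : ∃ t : ℝ, t = (1 - (ps q - ps p)) / D := ⟨_, rfl⟩
    have htD : t * D = 1 - (ps q - ps p) := by
      rw [ht, div_mul_cancel₀ _ hD0]
    have h1 := K2_sum3 (fun _ : Fin n => (1 : ℝ)) p q i (1 - t * (1 - al)) (-1 - t * al) t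
    have h2 := K2_sum3 de p q i (1 - t * (1 - al)) (-1 - t * al) t
    have h3 := K2_sum3 ps p q i (1 - t * (1 - al)) (-1 - t * al) t
    have h4 := hA (fun j => (if j = q then (1 - t * (1 - al)) else 0) +
      (if j = p then (-1 - t * al) else 0) + (if j = i then t else 0)) (by
        have e : ∀ j : Fin n, (if j = q then (1 - t * (1 - al)) else 0) +
          (if j = p then (-1 - t * al) else 0) + (if j = i then t else 0) =
          (1 : ℝ) * ((if j = q then (1 - t * (1 - al)) else 0) +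
          (if j = p then (-1 - t * al) else 0) + (if j = i then t else 0)) := by
            intro j
            rw [one_mul]
        rw [Finset.sum_congr rfl fun j _ => e j, h1]
        ring) (by
        show ∑ j, de j * ((if j = q then (1 - t * (1 - al)) else 0) +
          (if j = p then (-1 - t * al) else 0) + (if j = i then t else 0)) < 0
        rw [h2]
        have e : (1 - t * (1 - al)) * de q + (-1 - t * al) * de p + t * de i =
          -(de p - de q) - t * (al * (de p - de q) - (de i - de q)) := by ring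
        rw [e, hal', sub_self, mul_zero, sub_zero]
        linarith)
    have h5 : ∑ j, ps j * ((if j = q then (1 - t * (1 - al)) else 0) +
          (if j = p then (-1 - t * al) else 0) + (if j = i then t else 0)) ≤ 0 := h4
    rw [h3] at h5
    have e : (1 - t * (1 - al)) * ps q + (-1 - t * al) * ps p + t * ps i =
      (ps q - ps p) + t * D := by
      rw [hD]
      ring
    rw [e, htD] at h5
    linarith
  rw [key]
  have h6 : al = (de i - de q) / (de p - de q) := hal
  have h7 : (ps p - ps q) / (de p - de q) * (de p - de q) = ps p - ps q := div_mul_cancel₀ _ hne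
  obtain ⟨M, hM⟩ : ∃ M : ℝ, M = (ps p - ps q) / (de p - de q) := ⟨_, rfl⟩
  rw [← hM] at h7 ⊢
  have h8 : al * (ps p - ps q) = M * (de i - de q) := by
    rw [← h7, ← hal']
    ring
  linear_combination h8 + h7

theorem K2_ev (al be : ℝ) (hal : 0 < al) : ∀ᶠ r in nhdsWithin (0 : ℝ) (Set.Ioi 0),
    0 < al + r * be := by
  have hc : Continuous fun r : ℝ => al + r * be := by fun_prop
  have h1 : Filter.Tendsto (fun r : ℝ => al + r * be) (nhdsWithin (0 : ℝ) (Set.Ioi 0))
      (nhds (al + 0 * be)) := hc.continuousAt.tendsto.mono_left nhdsWithin_le_nhds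
  rw [zero_mul, add_zero] at h1
  exact h1.eventually (lt_mem_nhds hal)

theorem K2 : K2_stmt := by
  intro n W x a l al hW hx hsx har hPhi hK hmax hde
  -- the real matrix
  obtain ⟨w, hwdef⟩ : ∃ w : Fin n → Fin n → ℝ, ∀ i j, w i j = if W i j then (1 : ℝ) else 0 :=
    ⟨fun i j => if W i j then (1 : ℝ) else 0, fun i j => rfl⟩
  have hws : ∀ i j, w i j = w j i := by
    intro i j
    rw [hwdef, hwdef]
    by_cases h : W i j
    · rw [if_pos h, if_pos (hW i j h)]
    · rw [if_neg h, if_neg (fun h' => h (hW j i h'))]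
  have hite : ∀ (i j : Fin n) (e : ℝ), (if W i j then e else 0) = w i j * e := by
    intro i j e
    rw [hwdef]
    exact K2_ite _ _
  obtain ⟨de, hdedef⟩ : ∃ de : Fin n → ℝ, ∀ i, de i = ∑ j, w i j * x j :=
    ⟨fun i => ∑ j, w i j * x j, fun i => rfl⟩
  obtain ⟨ps, hpsdef⟩ : ∃ ps : Fin n → ℝ, ∀ i, ps i = (l - de i) * a i ^ 2 + ∑ j, w i j * (x j * a j ^ 2) :=
    ⟨fun i => (l - de i) * a i ^ 2 + ∑ j, w i j * (x j * a j ^ 2), fun i => rfl⟩
  have hde1 : ∀ i, (∑ j, if W i j then x j else 0) = de i := by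
    intro i
    rw [hdedef]
    exact Finset.sum_congr rfl fun j _ => hite i j (x j)
  have hps1 : ∀ i, (l - ∑ j, if W i j then x j else 0) * a i ^ 2 +
      (∑ j, if W i j then x j * a j ^ 2 else 0) = ps i := by
    intro i
    rw [hde1, hpsdef]
    congr 1
    exact Finset.sum_congr rfl fun j _ => hite i j _
  -- the value of `ps` from `hK`
  have hps2 : ∀ i, ps i = 2 * (∑ j, x j * a j) * a i +
      (∑ j, (w i j * (a i + a j) ^ 2) * x j) - l * a i ^ 2 := by
    intro i
    have h1 := hK i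
    rw [Finset.sum_congr rfl fun j _ => hite i j (x j * (a i + a j))] at h1
    have h2 : ∑ j, w i j * (x j * (a i + a j)) = de i * a i + ∑ j, w i j * (x j * a j) := by
      rw [hdedef, Finset.sum_mul, ← Finset.sum_add_distrib]
      exact Finset.sum_congr rfl fun j _ => by ring
    have h3 : ∑ j, (w i j * (a i + a j) ^ 2) * x j = de i * a i ^ 2 +
        2 * a i * ∑ j, w i j * (x j * a j) + ∑ j, w i j * (x j * a j ^ 2) := by
      rw [hdedef, Finset.sum_mul, Finset.mul_sum, ← Finset.sum_add_distrib,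
        ← Finset.sum_add_distrib]
      exact Finset.sum_congr rfl fun j _ => by ring
    rw [h2] at h1
    rw [h3, hpsdef]
    linear_combination (2 * a i) * h1
  -- expansions
  have harE : ∀ y : Fin n → ℝ, ar W y = ∑ i, ∑ j, w i j * (y i * y j) := by
    intro y
    exact Finset.sum_congr rfl fun i _ => Finset.sum_congr rfl fun j _ => hite i j _
  have hPhiE : ∀ y : Fin n → ℝ, Phi W y a = (∑ i, y i * a i) ^ 2 +
      (1 / 2) * ∑ i, ∑ j, (w i j * (a i + a j) ^ 2) * (y i * y j) := by
    intro y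
    show (∑ i, y i * a i) ^ 2 + (1 / 2) * ∑ i, ∑ j, (if W i j then y i * y j * (a i + a j) ^ 2 else 0) = _
    congr 2
    refine Finset.sum_congr rfl fun i _ => Finset.sum_congr rfl fun j _ => ?_
    rw [hite]
    ring
  have hA : ∀ u : Fin n → ℝ, ∑ i, u i = 0 → ∑ i, de i * u i < 0 → ∑ i, ps i * u i ≤ 0 := by
    intro u hu0 hu1
    by_contra hcon
    have hF : 0 < ∑ i, ps i * u i := not_le.mp hcon
    have ev1 : ∀ᶠ r in nhdsWithin (0 : ℝ) (Set.Ioi 0), ∀ i, 0 < x i + r * u i :=
      Filter.eventually_all.mpr fun i => K2_ev (x i) (u i) (hx i)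
    have ev2 := K2_ev (-2 * ∑ i, de i * u i) (-(ar W u)) (by linarith)
    have ev3 := K2_ev (∑ i, ps i * u i) (Phi W u a) hF
    have ev4 : ∀ᶠ r in nhdsWithin (0 : ℝ) (Set.Ioi 0), r ∈ Set.Ioi (0 : ℝ) :=
      self_mem_nhdsWithin
    obtain ⟨r, ⟨⟨h1, h2⟩, h3⟩, h4⟩ := (((ev1.and ev2).and ev3).and ev4).exists
    have hr : 0 < r := h4
    have hS : Spl fun i => x i + r * u i := by
      refine ⟨fun i => (h1 i).le, ?_⟩
      rw [Finset.sum_add_distrib, ← Finset.mul_sum, hu0, hsx, mul_zero, add_zero]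
    have hswap : ∑ i, u i * ∑ j, w i j * x j = ∑ i, de i * u i := by
      refine Finset.sum_congr rfl fun i _ => ?_
      rw [hdedef]
      ring
    have har2 : ar W (fun i => x i + r * u i) ≤ al := by
      rw [harE, K2_bil w hws x u r, ← harE x, ← harE u, hswap]
      nlinarith
    have hw' : ∀ i j, w i j * (a i + a j) ^ 2 = w j i * (a j + a i) ^ 2 := by
      intro i j
      rw [hws i j, add_comm (a i) (a j)]
    have hlin : ∑ i, (x i + r * u i) * a i = ∑ i, x i * a i + r * ∑ i, u i * a i := by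
      rw [Finset.mul_sum, ← Finset.sum_add_distrib]
      exact Finset.sum_congr rfl fun i _ => by ring
    have hPhi2 : Phi W (fun i => x i + r * u i) a = Phi W x a +
        r * (2 * (∑ i, x i * a i) * (∑ i, u i * a i) +
          ∑ i, u i * ∑ j, (w i j * (a i + a j) ^ 2) * x j) + r ^ 2 * Phi W u a := by
      rw [hPhiE, hPhiE x, hPhiE u]
      have e := K2_bil (fun i j => w i j * (a i + a j) ^ 2) hw' x u r
      have e' : ∑ i, ∑ j, (w i j * (a i + a j) ^ 2) * ((x i + r * u i) * (x j + r * u j)) =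
        ∑ i, ∑ j, (w i j * (a i + a j) ^ 2) * (x i * x j) +
        2 * r * ∑ i, u i * ∑ j, (w i j * (a i + a j) ^ 2) * x j +
        r ^ 2 * ∑ i, ∑ j, (w i j * (a i + a j) ^ 2) * (u i * u j) := e
      rw [e', hlin]
      ring
    have hNN : NN (fun i => x i + r * u i) a = NN x a + r * ∑ i, u i * a i ^ 2 := by
      show ∑ i, (x i + r * u i) * a i ^ 2 = ∑ i, x i * a i ^ 2 + r * ∑ i, u i * a i ^ 2
      rw [Finset.mul_sum, ← Finset.sum_add_distrib]
      exact Finset.sum_congr rfl fun i _ => by ring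
    have hFe : ∑ i, ps i * u i = 2 * (∑ i, x i * a i) * (∑ i, u i * a i) +
          ∑ i, u i * ∑ j, (w i j * (a i + a j) ^ 2) * x j - l * ∑ i, u i * a i ^ 2 := by
      obtain ⟨F, hFd⟩ : ∃ F : ℝ, F = ∑ i, x i * a i := ⟨_, rfl⟩
      rw [← hFd]
      have e : ∀ i, ps i * u i = 2 * F * (u i * a i) +
          u i * (∑ j, (w i j * (a i + a j) ^ 2) * x j) - l * (u i * a i ^ 2) := by
        intro i
        rw [hps2 i, ← hFd]
        ring
      rw [Finset.sum_congr rfl fun i _ => e i, Finset.sum_sub_distrib, Finset.sum_add_distrib,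
        ← Finset.mul_sum, ← Finset.mul_sum]
    have h5 := hmax (fun i => x i + r * u i) a hS har2
    rw [hPhi2, hNN, hPhi] at h5
    have h6 : r * (∑ i, ps i * u i + r * Phi W u a) ≤ 0 := by
      rw [hFe]
      nlinarith
    have h7 : 0 < r * (∑ i, ps i * u i + r * Phi W u a) := mul_pos hr h3
    linarith
  obtain ⟨i₀, j₀, hij⟩ := hde
  rw [hde1, hde1] at hij
  have hfin : ∃ nu M : ℝ, ∀ i, ps i = nu + M * de i := by
    rcases lt_or_gt_of_ne hij with h | h
    · exact K2_lin ps de j₀ i₀ h hA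
    · exact K2_lin ps de i₀ j₀ h hA
  obtain ⟨nu, M, hM⟩ := hfin
  refine ⟨nu, M, fun i => ?_⟩
  rw [hps1, hde1, hM]

end Pool.Agent.helper9.HQ
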